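import Pool.Agent.H62.EF.Defs

/-!
# EF2: Stokes for the Kuhn triangulation of the whole grid
-/

namespace Pool.Agent.H65.EF
open Finset Pool.Agent.H62.EF

variable {n d : ℕ}

/-- `j`-th face term. -/
def term (G : (ℕ → V n d) → ℤ) (j : ℕ) (x : V n d × Equiv.Perm (Fin d × Fin n)) : ℤ :=
  sgn x.2 * ((-1 : ℤ) ^ j * G (fun i => path x.1 x.2 (del j i)))

theorem abs_path (v : V n d) (π : Equiv.Perm (Fin d × Fin n)) (k : ℕ) (R : ℤ)
    (h : Inside R (path v π k)) : ∀ i c, |v i c| ≤ R + 1 := by
  intro i c
  have h1 := h i c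
  unfold path at h1
  rw [abs_le] at h1 ⊢
  split_ifs at h1 <;> constructor <;> linarith [h1.1, h1.2]

theorem finite_box (R : ℤ) : {v : V n d | ∀ i c, |v i c| ≤ R}.Finite := by
  have h : {v : V n d | ∀ i c, |v i c| ≤ R} ⊆
      Set.pi Set.univ (fun _ : Fin n => Set.pi Set.univ (fun _ : Fin d => Set.Icc (-R) R)) := by
    intro v hv i _ c _
    exact abs_le.mp (hv i c)
  exact (Set.Finite.pi' fun _ => Set.Finite.pi' fun _ => Set.finite_Icc _ _).subset
    (by intro v hv i c; exact abs_le.mp (hv i c))

theorem term_support (R : ℤ) (G : (ℕ → V n d) → ℤ)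
    (hsup : ∀ y : ℕ → V n d, G y ≠ 0 → ∃ k < d * n, Inside R (y k)) (j : ℕ) :
    (Function.support (term G j)).Finite := by
  have h : Function.support (term G j) ⊆
      {v : V n d | ∀ i c, |v i c| ≤ R + 1} ×ˢ (Set.univ : Set (Equiv.Perm (Fin d × Fin n))) := by
    intro x hx
    rw [Function.mem_support] at hx
    have hG : G (fun i => path x.1 x.2 (del j i)) ≠ 0 := by
      intro h0
      apply hx
      unfold term
      rw [h0]; ring
    obtain ⟨k, -, hk⟩ := hsup _ hG
    exact ⟨abs_path x.1 x.2 _ R hk, Set.mem_univ _⟩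
  exact ((finite_box (R + 1)).prod Set.finite_univ).subset h

/-- time slot number `k` -/
def slot (k : Fin (d * n)) : Fin d × Fin n := finProdFinEquiv.symm k

theorem pos_mul (π σ : Equiv.Perm (Fin d × Fin n)) (x : Fin d × Fin n) :
    pos (π * σ) x = (finProdFinEquiv (σ.symm (π.symm x)) : Fin (d * n)).val := rfl

theorem pos_swap (π : Equiv.Perm (Fin d × Fin n)) (a b : Fin (d * n)) (x : Fin d × Fin n) :
    pos (π * Equiv.swap (slot a) (slot b)) x =
      if pos π x = a.val then b.val else if pos π x = b.val then a.val else pos π x := by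
  rw [pos_mul, Equiv.symm_swap]
  unfold pos slot
  set y := π.symm x
  by_cases h1 : y = finProdFinEquiv.symm a
  · rw [h1, Equiv.swap_apply_left, Equiv.apply_symm_apply, Equiv.apply_symm_apply, if_pos rfl]
  · by_cases h2 : y = finProdFinEquiv.symm b
    · rw [h2, Equiv.swap_apply_right, Equiv.apply_symm_apply, Equiv.apply_symm_apply]
      by_cases h3 : b.val = a.val
      · rw [if_pos h3]; exact h3.symm
      · rw [if_neg h3, if_pos rfl]
    · rw [Equiv.swap_apply_of_ne_of_ne h1 h2, if_neg, if_neg]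
      · intro h3
        apply h2
        rw [Equiv.eq_symm_apply]
        exact Fin.ext h3
      · intro h3
        apply h1
        rw [Equiv.eq_symm_apply]
        exact Fin.ext h3

theorem middle (R : ℤ) (G : (ℕ → V n d) → ℤ)
    (hdep : ∀ y y' : ℕ → V n d, (∀ k < d * n, y k = y' k) → G y = G y')
    (j : ℕ) (h0 : 0 < j) (hj : j < d * n) : ∑ᶠ x, term G j x = 0 := by
  set a : Fin (d * n) := ⟨j - 1, by omega⟩ with ha
  set b : Fin (d * n) := ⟨j, hj⟩ with hb
  have hne : slot a ≠ slot b := by
    intro h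
    have := finProdFinEquiv.symm.injective h
    rw [ha, hb, Fin.mk.injEq] at this
    omega
  let e : V n d × Equiv.Perm (Fin d × Fin n) ≃ V n d × Equiv.Perm (Fin d × Fin n) :=
    Equiv.prodCongr (Equiv.refl _) (Equiv.mulRight (Equiv.swap (slot a) (slot b)))
  have key : ∀ x, term G j (e x) = - term G j x := by
    rintro ⟨v, π⟩
    have h1 : ∀ i, path v (π * Equiv.swap (slot a) (slot b)) (del j i) = path v π (del j i) := by
      intro i
      have hd : del j i ≠ j := by unfold del; split_ifs <;> omega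
      funext i' c
      unfold path
      rw [pos_swap]
      have hav : a.val = j - 1 := rfl
      have hbv : b.val = j := rfl
      rw [hav, hbv]
      congr 1
      split_ifs <;> first | rfl | omega
    have h2 : sgn (π * Equiv.swap (slot a) (slot b)) = - sgn π := by
      unfold sgn
      rw [Equiv.Perm.sign_mul, Equiv.Perm.sign_swap hne]
      simp
    show sgn (π * Equiv.swap (slot a) (slot b)) *
      ((-1 : ℤ) ^ j * G (fun i => path v (π * Equiv.swap (slot a) (slot b)) (del j i))) = _
    rw [h2]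
    unfold term
    have h3 : (fun i => path v (π * Equiv.swap (slot a) (slot b)) (del j i)) =
        fun i => path v π (del j i) := funext h1
    rw [h3]
    ring
  have h4 : ∑ᶠ x, term G j x = ∑ᶠ x, term G j (e x) := (finsum_comp_equiv e).symm
  have h5 : ∑ᶠ x, term G j (e x) = - ∑ᶠ x, term G j x := by
    simp_rw [key]
    exact finsum_neg_distrib _
  rw [h5] at h4
  omega

/-- rotation of the time slots -/
def rot (n d : ℕ) : Equiv.Perm (Fin d × Fin n) :=
  (finProdFinEquiv.trans (finRotate (d * n))).trans finProdFinEquiv.symm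

theorem sign_rot (hnd : 0 < d * n) : sgn (rot n d) = (-1 : ℤ) ^ (d * n - 1) := by
  unfold sgn rot
  have h1 : Equiv.Perm.sign ((finProdFinEquiv.trans (finRotate (d * n))).trans
      (finProdFinEquiv (m := d) (n := n)).symm) = Equiv.Perm.sign (finRotate (d * n)) := by
    have := Equiv.Perm.sign_symm_trans_trans (finRotate (d * n))
      ((finProdFinEquiv (m := d) (n := n)).symm)
    rw [← this]
    rfl
  rw [h1]
  obtain ⟨k, hk⟩ : ∃ k, d * n = k + 1 := ⟨d * n - 1, by omega⟩
  rw [hk, sign_finRotate]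
  simp

theorem pos_rot (hnd : 0 < d * n) (π : Equiv.Perm (Fin d × Fin n)) (x : Fin d × Fin n) :
    pos (π * rot n d) x = if pos π x = 0 then d * n - 1 else pos π x - 1 := by
  have h1 : ∃ k : Fin (d * n), finProdFinEquiv (π.symm x) = finRotate (d * n) k :=
    ⟨(finRotate (d * n)).symm (finProdFinEquiv (π.symm x)), (Equiv.apply_symm_apply _ _).symm⟩
  obtain ⟨k, hk⟩ := h1
  have h2 : pos (π * rot n d) x = k.val := by
    rw [pos_mul]
    show ((finProdFinEquiv (finProdFinEquiv.symm ((finRotate (d * n)).symm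
      (finProdFinEquiv (π.symm x))))) : Fin (d * n)).val = k.val
    rw [Equiv.apply_symm_apply, hk, Equiv.symm_apply_apply]
  have h3 : pos π x = (finRotate (d * n) k).val := by
    unfold pos; rw [hk]
  rw [h2, h3]
  obtain ⟨m, hm⟩ : ∃ m, d * n = m + 1 := ⟨d * n - 1, by omega⟩
  clear h2 h3 hk
  revert k
  rw [hm]
  intro k
  by_cases hl : k = Fin.last m
  · subst hl
    rw [finRotate_last]
    simp
  · rw [coe_finRotate_of_ne_last hl]
    simp

theorem ends (R : ℤ) (hnd : 0 < d * n) (G : (ℕ → V n d) → ℤ)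
    (hdep : ∀ y y' : ℕ → V n d, (∀ k < d * n, y k = y' k) → G y = G y') :
    ∑ᶠ x, term G 0 x = - ∑ᶠ x, term G (d * n) x := by
  let e : V n d × Equiv.Perm (Fin d × Fin n) → V n d × Equiv.Perm (Fin d × Fin n) :=
    fun x => (path x.1 x.2 1, x.2 * rot n d)
  have he : Function.Bijective e := by
    constructor
    · rintro ⟨v, π⟩ ⟨w, τ⟩ h
      have h1 : path v π 1 = path w τ 1 := congrArg Prod.fst h
      have h2 : π * rot n d = τ * rot n d := congrArg Prod.snd h
      have h3 : π = τ := mul_right_cancel h2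
      subst h3
      have h4 : v = w := by
        funext i c
        have := congrFun (congrFun h1 i) c
        unfold path at this
        linarith
      rw [h4]
    · rintro ⟨w, τ⟩
      refine ⟨(fun i c => w i c - if pos (τ * (rot n d)⁻¹) (c, i) < 1 then 1 else 0,
        τ * (rot n d)⁻¹), ?_⟩
      show (path _ _ 1, _) = _
      rw [Prod.mk.injEq]
      constructor
      · funext i c
        unfold path
        ring
      · simp
  have key : ∀ x, term G 0 x = - term G (d * n) (e x) := by
    rintro ⟨v, π⟩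
    have h1 : G (fun i => path v π (del 0 i)) =
        G (fun i => path (path v π 1) (π * rot n d) (del (d * n) i)) := by
      apply hdep
      intro k hk
      have hd0 : del 0 k = k + 1 := by unfold del; simp
      have hdm : del (d * n) k = k := by unfold del; simp [hk]
      show path v π (del 0 k) = path (path v π 1) (π * rot n d) (del (d * n) k)
      rw [hd0, hdm]
      funext i c
      unfold path
      rw [pos_rot hnd]
      have : pos π (c, i) < d * n := by unfold pos; exact Fin.isLt _
      split_ifs <;> omega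
    have h2 : sgn (π * rot n d) = sgn π * (-1 : ℤ) ^ (d * n - 1) := by
      rw [← sign_rot hnd]
      unfold sgn
      rw [Equiv.Perm.sign_mul]
      simp
    show sgn π * ((-1 : ℤ) ^ 0 * G (fun i => path v π (del 0 i))) =
      -(sgn (π * rot n d) * ((-1 : ℤ) ^ (d * n) *
        G (fun i => path (path v π 1) (π * rot n d) (del (d * n) i))))
    rw [h1, h2]
    have h3 : (-1 : ℤ) ^ (d * n - 1) * (-1 : ℤ) ^ (d * n) = -1 := by
      obtain ⟨m, hm⟩ : ∃ m, d * n = m + 1 := ⟨d * n - 1, by omega⟩
      rw [hm, Nat.add_sub_cancel, pow_succ, ← mul_assoc, ← pow_add, ← two_mul, pow_mul]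
      simp
    linear_combination (sgn π * G (fun i => path (path v π 1) (π * rot n d) (del (d * n) i))) * h3
  have h4 : ∑ᶠ x, term G (d * n) (e x) = ∑ᶠ x, term G (d * n) x := finsum_comp e he
  rw [← h4, ← finsum_neg_distrib]
  exact finsum_congr key

/-- EF2. Stokes for the Kuhn triangulation of the whole grid. -/
theorem EF2 (n d : ℕ) (hnd : 0 < d * n) (R : ℤ) (G : (ℕ → V n d) → ℤ)
    (hdep : ∀ y y' : ℕ → V n d, (∀ k < d * n, y k = y' k) → G y = G y')
    (hsup : ∀ y : ℕ → V n d, G y ≠ 0 → ∃ k < d * n, Inside R (y k)) :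
    ∑ᶠ x : V n d × Equiv.Perm (Fin d × Fin n),
      sgn x.2 * ∑ j ∈ range (d * n + 1), (-1 : ℤ) ^ j * G (fun i => path x.1 x.2 (del j i)) = 0 := by
  have h1 : ∀ x : V n d × Equiv.Perm (Fin d × Fin n),
      sgn x.2 * ∑ j ∈ range (d * n + 1), (-1 : ℤ) ^ j * G (fun i => path x.1 x.2 (del j i)) =
        ∑ j ∈ range (d * n + 1), term G j x := by
    intro x
    rw [mul_sum]
    rfl
  simp_rw [h1]
  rw [finsum_sum_comm _ _ (fun j _ => term_support R G hsup j)]
  obtain ⟨m, hm⟩ : ∃ m, d * n = m + 1 := ⟨d * n - 1, by omega⟩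
  rw [sum_range_succ, hm, sum_range_succ', ← hm]
  have h2 : ∑ k ∈ range m, ∑ᶠ x, term G (k + 1) x = 0 := by
    apply sum_eq_zero
    intro k hk
    rw [mem_range] at hk
    exact middle R G hdep (k + 1) (by omega) (by omega)
  rw [h2, ends R hnd G hdep]
  ring

end Pool.Agent.H65.EF
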